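import Pool.Agent.K1H42.HP.Defs
import Pool.Agent.K1H42.HP.All

/-!
# MP_5499ac_co: the smallest admissible integer is `M_q = 1`
-/

namespace Pool.Agent.Results.MP_5499ac_co.OptimalConstantOne

open Pool.Agent.K1H42.HP.Final

/-- The integer `M` is admissible for the finite field `F` (with `q` elements): there is `k₀` such
that for all `k ≥ k₀`, all `n ≥ 2k + M` and every `n`-dimensional `V`, every intersecting family of
`k`-dimensional subspaces of `V` has at most `[k + 1]_q` high points. -/
def Admissible (F : Type) [Field F] (M : ℤ) : Prop :=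
  ∃ k₀ : ℕ, ∀ k : ℕ, k₀ ≤ k → ∀ n : ℕ, 2 * (k : ℤ) + M ≤ (n : ℤ) →
    ∀ (V : Type) [AddCommGroup V] [Module F V] [FiniteDimensional F V], Module.finrank F V = n →
      ∀ 𝓕 : Set (Submodule F V), IsIntersecting k 𝓕 →
        (highPoints n k 𝓕).ncard ≤ num F (k + 1)

/-- For every finite field `F` the smallest admissible integer is `1`. -/
theorem result (F : Type) [Field F] [Finite F] : IsLeast {M : ℤ | Admissible F M} 1 := by
  constructor
  · refine ⟨1000, fun k hk n hn V _ _ _ hV 𝓕 h𝓕 => ?_⟩
    exact Pool.Agent.K1H42.HP.upper_all F n k hk (by omega) V hV 𝓕 h𝓕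
  · rintro M ⟨k₀, hM⟩
    by_contra hcon
    push Not at hcon
    obtain ⟨𝓕, h1, h2⟩ := Pool.Agent.K1H42.HP.lower_2k F (max k₀ 4) (le_max_right _ _)
      (Fin (2 * max k₀ 4) → F) (by simp)
    have := hM (max k₀ 4) (le_max_left _ _) (2 * max k₀ 4) (by push_cast; omega)
      (Fin (2 * max k₀ 4) → F) (by simp) 𝓕 h1
    omega

end Pool.Agent.Results.MP_5499ac_co.OptimalConstantOne
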